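import Pool.Agent.helper35.OT.Spec

set_option autoImplicit false

namespace Pool.Agent.helper35.OT

open Finset

theorem D1 (hFE : FE_stmt) (hMJ : MJ_stmt) : D1_stmt := by
  intro c0 c1 c2 r x hR h0 h2 hx hx1 hS
  obtain ⟨hS2, hfe⟩ := hFE c0 c1 c2 r x hR hx.le hx1 hS
  have hr0 := hR.1
  have hr1 : r 1 = c0 := by
    have h := hR.2 0
    simp [hr0] at h
    omega
  have hnn : ∀ (t : ℝ), 0 ≤ t → ∀ n : ℕ, 0 ≤ (r n : ℝ) * t ^ n := fun t ht n => by positivity
  set S : ℝ := SS r x with hSdef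
  set Z : ℝ := SS r (x ^ 2) with hZdef
  have hSpos : 0 < S := by
    have h1 : (r 1 : ℝ) * x ^ 1 ≤ S := hS.le_tsum 1 (fun j _ => hnn x hx.le j)
    rw [hr1, pow_one] at h1
    have h3 : (1 : ℝ) ≤ c0 := by exact_mod_cast h0
    have h4 : 0 < (c0 : ℝ) * x := by positivity
    linarith
  have hZ0 : 0 ≤ Z := tsum_nonneg (hnn (x ^ 2) (by positivity))
  have hZN : ∀ N, ∑ n ∈ range N, (r n : ℝ) * (x ^ 2) ^ n ≤ Z := fun N =>
    hS2.sum_le_tsum (range N) (fun j _ => hnn (x ^ 2) (by positivity) j)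
  have hc0 : (1 : ℝ) ≤ c0 := by exact_mod_cast h0
  have hc2 : (1 : ℝ) ≤ c2 := by exact_mod_cast h2
  have hc1 : (0 : ℝ) ≤ c1 := Nat.cast_nonneg c1
  obtain ⟨P, hP⟩ : ∃ P : ℝ, P = c0 + c2 / 2 * Z := ⟨_, rfl⟩
  have hPpos : 0 < P := by
    rw [hP]
    positivity
  have hfe' : S = x * (c1 * S + c2 / 2 * S ^ 2 + P) := by
    rw [hP]
    linarith
  by_contra hcon
  have hcon' : 1 < c1 * x + c2 * x * S := not_le.1 hcon
  obtain ⟨S', hS'⟩ : ∃ S' : ℝ, S' = 2 * P / (c2 * S) := ⟨_, rfl⟩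
  have hS'0 : 0 < S' := by
    rw [hS']
    positivity
  have hprod : c2 * S * S' = 2 * P := by
    rw [hS']
    field_simp
  have heq : x * (c1 * S' + c2 / 2 * S' ^ 2 + P) = S' := by
    have h3 : S * (x * (c1 * S' + c2 / 2 * S' ^ 2 + P)) = S * S' := by
      have e1 : S * (x * (c1 * S' + c2 / 2 * S' ^ 2 + P)) =
          x * (c1 * S * S' + (c2 * S * S') / 2 * S' + P * S) := by ring
      have e2 : S * S' = x * (c1 * S * S' + (c2 * S * S') / 2 * S + P * S') := by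
        have e3 : S * S' = (x * (c1 * S + c2 / 2 * S ^ 2 + P)) * S' := by rw [← hfe']
        rw [e3]
        ring
      rw [e1, e2, hprod]
      ring
    exact mul_left_cancel₀ hSpos.ne' h3
  have hlt : S' < S := by
    by_contra hge
    have hge' : S ≤ S' := not_lt.1 hge
    have h3 : c2 * S * S ≤ 2 * P := by
      rw [← hprod]
      exact mul_le_mul_of_nonneg_left hge' (by positivity)
    have h4 : S * (c1 * x + c2 * x * S) ≤ S := by
      have h5 : x * (c1 * S + c2 / 2 * S ^ 2 + c2 * S * S / 2) ≤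
          x * (c1 * S + c2 / 2 * S ^ 2 + P) :=
        mul_le_mul_of_nonneg_left (by linarith) hx.le
      rw [← hfe'] at h5
      have h6 : x * (c1 * S + c2 / 2 * S ^ 2 + c2 * S * S / 2) = S * (c1 * x + c2 * x * S) := by ring
      linarith
    have h7 : S * 1 < S * (c1 * x + c2 * x * S) := mul_lt_mul_of_pos_left hcon' hSpos
    linarith
  have hfin := (hMJ c0 c1 c2 r x S' Z hR hx.le hS'0.le hZN (by
    have h8 : x * (c0 + c1 * S' + c2 / 2 * (S' ^ 2 + Z)) = x * (c1 * S' + c2 / 2 * S' ^ 2 + P) := by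
      rw [hP]
      ring
    rw [h8, heq])).2
  rw [← hSdef] at hfin
  linarith

end Pool.Agent.helper35.OT
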