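import Pool.Agent.helper64.OT.SpecI

/-!
# Project OT, third theorem, row DIL: dilation
-/

set_option autoImplicit false

namespace Pool.Agent.OL

open Finset Pool.Agent.OT Pool.Agent.SPI Pool.Agent.helper85.PG
open scoped Pointwise

theorem DIL_fb {p : ℕ} [Fact p.Prime] (χ : MulChar (ZMod p) ℂ) (Y : Finset (ZMod p)) (β : ZMod p → ℂ) (v : ZMod p)
    (hv : v ≠ 0) (x : ZMod p) :
    ∑ y ∈ Y, β y * χ (x - y) = χ v * Pool.Agent.OT.FB χ (Y.image fun y => -(y * v⁻¹)) (fun w => β (-(v * w))) (x * v⁻¹) := by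
  unfold Pool.Agent.OT.FB
  have hinj : Set.InjOn (fun y : ZMod p => -(y * v⁻¹)) (Y : Set (ZMod p)) := by
    intro a _ b _ h
    have h1 : a * v⁻¹ = b * v⁻¹ := neg_injective h
    exact mul_right_cancel₀ (inv_ne_zero hv) h1
  rw [Finset.sum_image hinj, Finset.mul_sum]
  refine Finset.sum_congr rfl fun y _ => ?_
  show β y * χ (x - y) = χ v * (β (-(v * -(y * v⁻¹))) * χ (x * v⁻¹ + -(y * v⁻¹)))
  have h1 : -(v * -(y * v⁻¹)) = y := by
    field_simp
  have h2 : χ (x - y) = χ v * χ (x * v⁻¹ + -(y * v⁻¹)) := by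
    rw [← map_mul]
    congr 1
    field_simp
    ring
  rw [h1, h2]
  ring

theorem DIL_val {p : ℕ} [Fact p.Prime] (h : ℕ) (u : ZMod p) (n : ℕ) (hn : n < h) :
    (u + (n : ZMod p)).val / h = 0 ∨ (u + (n : ZMod p)).val / h = u.val / h ∨ (u + (n : ZMod p)).val / h = u.val / h + 1 := by
  have hp : 0 < p := (Fact.out : p.Prime).pos
  have hh : 0 < h := lt_of_le_of_lt (Nat.zero_le _) hn
  have hu : u.val < p := ZMod.val_lt u
  have e : (u + (n : ZMod p)).val = (u.val + n) % p := by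
    have h1 : u + (n : ZMod p) = ((u.val + n : ℕ) : ZMod p) := by
      push_cast
      rw [ZMod.natCast_zmod_val]
    rw [h1, ZMod.val_natCast]
  rcases lt_or_ge (u.val + n) p with hlt | hge
  · right
    rw [e, Nat.mod_eq_of_lt hlt]
    have h1 : u.val / h ≤ (u.val + n) / h := Nat.div_le_div_right (Nat.le_add_right _ _)
    have h2 : (u.val + n) / h ≤ u.val / h + 1 := by
      have h3 : (u.val + n) / h ≤ (u.val + h) / h := Nat.div_le_div_right (by omega)
      rwa [Nat.add_div_right _ hh] at h3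
    omega
  · left
    have h1 : (u.val + n) % p ≤ u.val + n - p := by
      rw [Nat.mod_eq_sub_mod hge]
      exact Nat.mod_le _ _
    rw [e]
    apply Nat.div_eq_of_lt
    omega

theorem DIL_cells {p : ℕ} [Fact p.Prime] (h : ℕ) (X T : Finset (ZMod p)) (v : ZMod p) (hv : v ≠ 0)
    (hX : ∀ x ∈ X, ∃ t ∈ T, ∃ n : ℕ, n < h ∧ x = t + (n : ZMod p) * v) :
    (cells h (X.image fun x => x * v⁻¹)).card ≤ 3 * T.card := by
  classical
  have hsub : cells h (X.image fun x => x * v⁻¹) ⊆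
      T.biUnion fun t => ({0, (t * v⁻¹).val / h, (t * v⁻¹).val / h + 1} : Finset ℕ) := by
    intro j hj
    unfold cells at hj
    obtain ⟨x', hx', rfl⟩ := Finset.mem_image.1 hj
    obtain ⟨x, hx, rfl⟩ := Finset.mem_image.1 hx'
    obtain ⟨t, ht, n, hn, hxe⟩ := hX x hx
    rw [Finset.mem_biUnion]
    refine ⟨t, ht, ?_⟩
    have e : x * v⁻¹ = t * v⁻¹ + (n : ZMod p) := by
      rw [hxe]
      field_simp
    show (x * v⁻¹).val / h ∈ _
    rw [e]
    rcases DIL_val h (t * v⁻¹) n hn with h1 | h1 | h1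
    · rw [h1]
      simp
    · rw [h1]
      simp
    · rw [h1]
      simp
  refine (Finset.card_le_card hsub).trans (Finset.card_biUnion_le.trans ?_)
  calc ∑ t ∈ T, ({0, (t * v⁻¹).val / h, (t * v⁻¹).val / h + 1} : Finset ℕ).card ≤ ∑ _t ∈ T, 3 :=
        Finset.sum_le_sum fun t _ => Finset.card_le_three
    _ = 3 * T.card := by
        rw [Finset.sum_const, smul_eq_mul, mul_comm]

theorem DIL (hCOL : COL_stmt) : DIL_stmt := by
  classical
  intro κ ε hκ hκ1 hε
  obtain ⟨c, p₀, hc, hC⟩ := hCOL κ ε hκ hκ1 hε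
  refine ⟨c / 2, max p₀ (⌈(3 : ℝ) ^ (2 / c)⌉₊), by positivity, ?_⟩
  intro p _ hp χ h X Y T v β hχ hβ hv hh hT hX hsz
  have hp0 : p₀ < p := lt_of_le_of_lt (le_max_left _ _) hp
  have hp1 : (3 : ℝ) ^ (2 / c) ≤ p :=
    (Nat.le_ceil _).trans (by exact_mod_cast (lt_of_le_of_lt (le_max_right _ _) hp).le)
  have hpos : (0 : ℝ) < p := by exact_mod_cast (Fact.out : p.Prime).pos
  have hge1 : (1 : ℝ) ≤ p := by exact_mod_cast (Fact.out : p.Prime).one_le
  have h3 : (3 : ℝ) ≤ (p : ℝ) ^ (c / 2) := by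
    have e : ((3 : ℝ) ^ (2 / c)) ^ (c / 2) = 3 := by
      rw [← Real.rpow_mul (by norm_num)]
      have h1 : 2 / c * (c / 2) = 1 := by field_simp
      rw [h1, Real.rpow_one]
    calc (3 : ℝ) = ((3 : ℝ) ^ (2 / c)) ^ (c / 2) := e.symm
      _ ≤ (p : ℝ) ^ (c / 2) := Real.rpow_le_rpow (by positivity) hp1 (by positivity)
  have hcell := DIL_cells h X T v hv hX
  have hinjX : Set.InjOn (fun x : ZMod p => x * v⁻¹) (X : Set (ZMod p)) :=
    fun a _ b _ hab => mul_right_cancel₀ (inv_ne_zero hv) hab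
  have hinjY : Set.InjOn (fun y : ZMod p => -(y * v⁻¹)) (Y : Set (ZMod p)) := by
    intro a _ b _ hab
    have h1 : a * v⁻¹ = b * v⁻¹ := neg_injective hab
    exact mul_right_cancel₀ (inv_ne_zero hv) h1
  have hcX : (X.image fun x => x * v⁻¹).card = X.card := Finset.card_image_of_injOn hinjX
  have hcY : (Y.image fun y => -(y * v⁻¹)).card = Y.card := Finset.card_image_of_injOn hinjY
  have hmain := hC p hp0 χ h (X.image fun x => x * v⁻¹) (Y.image fun y => -(y * v⁻¹)) (fun w => β (-(v * w))) hχ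
    (fun b => hβ _) hh (by
      have h1 : ((cells h (X.image fun x => x * v⁻¹)).card : ℝ) ≤ 3 * T.card := by exact_mod_cast hcell
      have h2 : (p : ℝ) ^ (1 / 2 + c) = (p : ℝ) ^ (1 / 2 + c / 2) * (p : ℝ) ^ (c / 2) := by
        rw [← Real.rpow_add hpos]
        congr 1
        ring
      rw [h2]
      calc (h : ℝ) * ((cells h (X.image fun x => x * v⁻¹)).card : ℝ) ≤ h * (3 * T.card) :=
            mul_le_mul_of_nonneg_left h1 (Nat.cast_nonneg _)
        _ = (h * T.card) * 3 := by ring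
        _ ≤ (p : ℝ) ^ (1 / 2 + c / 2) * (p : ℝ) ^ (c / 2) :=
            mul_le_mul hT h3 (by norm_num) (Real.rpow_nonneg hpos.le _)) (by
      rw [hcX, hcY]
      exact hsz)
  rw [hcX, hcY, Finset.sum_image hinjX] at hmain
  have hχv : ‖χ v‖ ≤ 1 := DirichletCharacter.norm_le_one χ v
  calc ∑ x ∈ X, ‖∑ y ∈ Y, β y * χ (x - y)‖
      ≤ ∑ x ∈ X, ‖Pool.Agent.OT.FB χ (Y.image fun y => -(y * v⁻¹)) (fun w => β (-(v * w))) (x * v⁻¹)‖ := by
        refine Finset.sum_le_sum fun x _ => ?_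
        rw [DIL_fb χ Y β v hv x, norm_mul]
        exact mul_le_of_le_one_left (norm_nonneg _) hχv
    _ ≤ (p : ℝ) ^ (-c) * (Real.sqrt (p * (X.card * Y.card)) + X.card * Y.card) := hmain
    _ ≤ (p : ℝ) ^ (-(c / 2)) * (Real.sqrt (p * (X.card * Y.card)) + X.card * Y.card) := by
        refine mul_le_mul_of_nonneg_right ?_ (by positivity)
        exact Real.rpow_le_rpow_of_exponent_le hge1 (by linarith)

end Pool.Agent.OL
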